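import Pool.Agent.V11122.Hd.Facet

/-!
# Halving hyperplanes and `k`-hyperplanes after the deletion of a small proportion of the points

`P` is a finite set of points of `ℝ^d` in general position (no `d + 1` of them on a hyperplane).
-/

set_option autoImplicit false

namespace Pool.Agent.Results.MP_971713_co.HalvingAfterDeletions

open Finset

/-- no hyperplane contains more than `d` points of `P` -/
def GeneralPosition {d : ℕ} (P : Finset (Fin d → ℝ)) : Prop :=
  ∀ u : (Fin d → ℝ) →ₗ[ℝ] ℝ, u ≠ 0 → ∀ r : ℝ, {x | x ∈ P ∧ u x = r}.ncard ≤ d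

/-- the `k`-hyperplanes of `Q`: the sets of `d` points of `Q` such that one of the two open sides of the hyperplane
`u = r` through them contains exactly `k` points of `Q` (the side `u > r`; the other one is that of `-u`, `-r`) -/
def kHyperplanes {d : ℕ} (Q : Finset (Fin d → ℝ)) (k : ℕ) : Set (Finset (Fin d → ℝ)) :=
  {T | T ⊆ Q ∧ T.card = d ∧ ∃ (u : (Fin d → ℝ) →ₗ[ℝ] ℝ) (r : ℝ), u ≠ 0 ∧ (∀ x ∈ T, u x = r) ∧
    {x | x ∈ Q ∧ r < u x}.ncard = k}

open Pool.Agent.V11122.Hd in
/-- For every `d ≥ 1` there is a constant `K` such that from every nonempty finite set `P` of points of `ℝ^d` in general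
position one can delete for all `0 < α < 1` and `0 < δ ≤ 1` at most `δ |P|` points so that the set `Q` of the remaining
points has at most `K |P|^(d-1) / (δ min (α, 1 - α))` `k`-hyperplanes for `k = ⌊α |Q|⌋`. -/
theorem result (d : ℕ) (hd : 1 ≤ d) : ∃ K : ℝ, 0 < K ∧
    ∀ P : Finset (Fin d → ℝ), P.Nonempty → GeneralPosition P →
      ∀ α δ : ℝ, 0 < α → α < 1 → 0 < δ → δ ≤ 1 →
        ∃ Q ⊆ P, (1 - δ) * P.card ≤ Q.card ∧ (kHyperplanes Q ⌊α * Q.card⌋₊).Finite ∧
          ((kHyperplanes Q ⌊α * Q.card⌋₊).ncard : ℝ) ≤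
            K * (P.card : ℝ) ^ (d - 1) / (δ * min α (1 - α)) := by
  classical
  obtain ⟨K, hK, hmain⟩ := Pool.Agent.V11122.Hd.main_fam (d := d) (by omega)
  refine ⟨K, hK, ?_⟩
  intro P hne hG α δ hα0 hα1 hδ0 hδ1
  set n := P.card with hnP
  have hn : 0 < n := hne.card_pos
  let f : Fin n → (Fin d → ℝ) := fun i => (P.equivFin.symm i : Fin d → ℝ)
  have hf : Function.Injective f := by
    intro i j h
    exact P.equivFin.symm.injective (Subtype.ext h)
  have hfP : ∀ i, f i ∈ P := fun i => (P.equivFin.symm i).2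
  have hGP : GenPos f := by
    intro u hu r
    have h1 := hG u hu r
    refine le_trans ?_ h1
    rw [← card_image_of_injective _ hf, ← Set.ncard_coe_finset]
    apply Set.ncard_le_ncard
    · intro x hx
      rw [mem_coe, mem_image] at hx
      obtain ⟨t, ht, rfl⟩ := hx
      exact ⟨hfP t, (mem_filter.mp ht).2⟩
    · exact (P.finite_toSet).subset fun x hx => hx.1
  have hfac : ((facets f).card : ℝ) ≤ 2 * ((d + 1) * (n : ℝ) ^ d) := by
    have h1 : ((facets f).card : ℝ) ≤ 2 * (n : ℝ) ^ d := by exact_mod_cast facets_card hGP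
    have h2 : (0 : ℝ) ≤ (n : ℝ) ^ d := by positivity
    have h3 : (0 : ℝ) ≤ d := Nat.cast_nonneg _
    nlinarith [mul_nonneg h3 h2]
  obtain ⟨D, hD1, hD2⟩ := hmain n f hn hGP _ (facets f) Prod.snd (fun τ hτ => facets_trace hτ) hfac
    α δ hα0 hα1 hδ0 hδ1
  have hDn : D.card ≤ n := by simpa using card_le_univ D
  have hQc : (Dᶜ.image f).card = Dᶜ.card := card_image_of_injective _ hf
  have hsub : kHyperplanes (Dᶜ.image f) ⌊α * (Dᶜ.image f).card⌋₊ ⊆
      (fun τ : Finset (Fin n) × Finset (Fin n) => τ.1.image f) ''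
        (((facets f).filter (fun τ => (Prod.snd τ \ D).card = ⌊α * Dᶜ.card⌋₊) :
          Finset (Finset (Fin n) × Finset (Fin n))) : Set (Finset (Fin n) × Finset (Fin n))) := by
    rintro T ⟨hTQ, hTd, u, r, hu, hT, hk⟩
    set A : Finset (Fin n) := univ.filter (fun t => r < u (f t)) with hA
    set T0 : Finset (Fin n) := univ.filter (fun t => f t ∈ T) with hT0
    have hTT : T0.image f = T := by
      ext x
      rw [mem_image]
      constructor
      · rintro ⟨t, ht, rfl⟩
        exact (mem_filter.mp ht).2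
      · intro hx
        obtain ⟨t, -, rfl⟩ := mem_image.mp (hTQ hx)
        exact ⟨t, mem_filter.mpr ⟨mem_univ _, hx⟩, rfl⟩
    have hAS : f '' ((A \ D : Finset (Fin n)) : Set (Fin n)) =
        {x | x ∈ Dᶜ.image f ∧ r < u x} := by
      ext x
      constructor
      · rintro ⟨t, ht, rfl⟩
        rw [mem_coe, mem_sdiff, hA, mem_filter] at ht
        exact ⟨mem_image_of_mem _ (mem_compl.mpr ht.2), ht.1.2⟩
      · rintro ⟨hx, hr⟩
        obtain ⟨t, ht, rfl⟩ := mem_image.mp hx
        refine ⟨t, ?_, rfl⟩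
        rw [mem_coe, mem_sdiff, hA, mem_filter]
        exact ⟨⟨mem_univ _, hr⟩, mem_compl.mp ht⟩
    refine ⟨(T0, A), ?_, hTT⟩
    rw [mem_coe, mem_filter]
    refine ⟨?_, ?_⟩
    · unfold facets
      rw [mem_filter]
      refine ⟨mem_univ _, ?_, u, r, hu, fun t ht => ?_, fun t => ?_⟩
      · change T0.card = d
        rw [← hTd, ← hTT, card_image_of_injective _ hf]
      · exact hT _ (mem_filter.mp ht).2
      · change t ∈ A ↔ r < u (f t)
        rw [hA, mem_filter]
        exact ⟨fun h => h.2, fun h => ⟨mem_univ _, h⟩⟩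
    · change (A \ D).card = ⌊α * Dᶜ.card⌋₊
      rw [← hAS, Set.ncard_image_of_injective _ hf, Set.ncard_coe_finset, hQc] at hk
      exact hk
  have hfin := ((((facets f).filter
    (fun τ => (Prod.snd τ \ D).card = ⌊α * Dᶜ.card⌋₊)).finite_toSet).image
    (fun τ : Finset (Fin n) × Finset (Fin n) => τ.1.image f))
  refine ⟨Dᶜ.image f, ?_, ?_, hfin.subset hsub, ?_⟩
  · intro x hx
    obtain ⟨t, -, rfl⟩ := mem_image.mp hx
    exact hfP t
  · rw [hQc, card_compl, Fintype.card_fin, Nat.cast_sub hDn]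
    linarith
  · refine le_trans ?_ hD2
    have h1 := (Set.ncard_le_ncard hsub hfin).trans (Set.ncard_image_le (Finset.finite_toSet _))
    rw [Set.ncard_coe_finset] at h1
    unfold famCount
    exact_mod_cast h1

end Pool.Agent.Results.MP_971713_co.HalvingAfterDeletions
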