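import Pool.Agent.V11122.Hd.Rand

/-!
# Halving hyperplanes after random deletions of points

`P` is a finite set of points of `ℝ^d` in general position (no `d + 1` of them on a hyperplane).
-/

set_option autoImplicit false

namespace Pool.Agent.Results.MP_971713_co.RandomDeletions

open Finset

/-- no hyperplane contains more than `d` points of `P` -/
def GeneralPosition {d : ℕ} (P : Finset (Fin d → ℝ)) : Prop :=
  ∀ u : (Fin d → ℝ) →ₗ[ℝ] ℝ, u ≠ 0 → ∀ r : ℝ, {x | x ∈ P ∧ u x = r}.ncard ≤ d

/-- the halving hyperplanes of `Q`: the sets of `d` points of `Q` such that one of the two open sides of the hyperplane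
`u = r` through them contains exactly `⌊|Q| / 2⌋` points of `Q` -/
def halving {d : ℕ} (Q : Finset (Fin d → ℝ)) : Set (Finset (Fin d → ℝ)) :=
  {T | T ⊆ Q ∧ T.card = d ∧ ∃ (u : (Fin d → ℝ) →ₗ[ℝ] ℝ) (r : ℝ), u ≠ 0 ∧ (∀ x ∈ T, u x = r) ∧
    {x | x ∈ Q ∧ r < u x}.ncard = Q.card / 2}

/-- the expected number of halving hyperplanes of the random subset of `P` in which every point is deleted
independently with probability `r` -/
noncomputable def meanHalving {d : ℕ} (P : Finset (Fin d → ℝ)) (r : ℝ) : ℝ :=
  ∑ Q ∈ P.powerset, (1 - r) ^ Q.card * r ^ (P.card - Q.card) * ((halving Q).ncard : ℝ)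

open Pool.Agent.V11122.Hd in
theorem count_le {d n : ℕ} {f : Fin n → (Fin d → ℝ)} (hf : Function.Injective f)
    (D : Finset (Fin n)) [DecidableEq (Fin d → ℝ)] :
    (halving (Dᶜ.image f)).ncard ≤ hfac f D := by
  classical
  have hQc : (Dᶜ.image f).card = Dᶜ.card := card_image_of_injective _ hf
  have hsub : halving (Dᶜ.image f) ⊆
      (fun τ : Finset (Fin n) × Finset (Fin n) => τ.1.image f) ''
        (((facets f).filter (fun τ => Disjoint τ.1 D ∧ (τ.2 \ D).card = Dᶜ.card / 2) :
          Finset (Finset (Fin n) × Finset (Fin n))) : Set (Finset (Fin n) × Finset (Fin n))) := by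
    rintro T ⟨hTQ, hTd, u, r, hu, hT, hk⟩
    set A : Finset (Fin n) := univ.filter (fun t => r < u (f t)) with hA
    set T0 : Finset (Fin n) := univ.filter (fun t => f t ∈ T) with hT0
    have hTT : T0.image f = T := by
      ext x
      rw [mem_image]
      constructor
      · rintro ⟨t, ht, rfl⟩
        exact (mem_filter.mp ht).2
      · intro hx
        obtain ⟨t, -, rfl⟩ := mem_image.mp (hTQ hx)
        exact ⟨t, mem_filter.mpr ⟨mem_univ _, hx⟩, rfl⟩
    have hTD : Disjoint T0 D := by
      rw [disjoint_left]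
      intro t ht htD
      obtain ⟨s, hs, hst⟩ := mem_image.mp (hTQ (mem_filter.mp ht).2)
      rw [hf hst] at hs
      exact (mem_compl.mp hs) htD
    have hAS : f '' ((A \ D : Finset (Fin n)) : Set (Fin n)) =
        {x | x ∈ Dᶜ.image f ∧ r < u x} := by
      ext x
      constructor
      · rintro ⟨t, ht, rfl⟩
        rw [mem_coe, mem_sdiff, hA, mem_filter] at ht
        exact ⟨mem_image_of_mem _ (mem_compl.mpr ht.2), ht.1.2⟩
      · rintro ⟨hx, hr⟩
        obtain ⟨t, ht, rfl⟩ := mem_image.mp hx
        refine ⟨t, ?_, rfl⟩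
        rw [mem_coe, mem_sdiff, hA, mem_filter]
        exact ⟨⟨mem_univ _, hr⟩, mem_compl.mp ht⟩
    refine ⟨(T0, A), ?_, hTT⟩
    rw [mem_coe, mem_filter]
    refine ⟨?_, hTD, ?_⟩
    · unfold facets
      rw [mem_filter]
      refine ⟨mem_univ _, ?_, u, r, hu, fun t ht => ?_, fun t => ?_⟩
      · change T0.card = d
        rw [← hTd, ← hTT, card_image_of_injective _ hf]
      · exact hT _ (mem_filter.mp ht).2
      · change t ∈ A ↔ r < u (f t)
        rw [hA, mem_filter]
        exact ⟨fun h => h.2, fun h => ⟨mem_univ _, h⟩⟩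
    · change (A \ D).card = Dᶜ.card / 2
      rw [← hAS, Set.ncard_image_of_injective _ hf, Set.ncard_coe_finset, hQc] at hk
      exact hk
  have hfin := ((((facets f).filter
    (fun τ => Disjoint τ.1 D ∧ (τ.2 \ D).card = Dᶜ.card / 2)).finite_toSet).image
    (fun τ : Finset (Fin n) × Finset (Fin n) => τ.1.image f))
  have h1 := (Set.ncard_le_ncard hsub hfin).trans (Set.ncard_image_le (Finset.finite_toSet _))
  rw [Set.ncard_coe_finset] at h1
  unfold hfac
  convert h1

open Pool.Agent.V11122.Hd Pool.Agent.Y344.KD in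
/-- For every `d ≥ 1` there is a constant `C` such that for every nonempty finite set `P` of points of `ℝ^d` in general
position and every `r ∈ (0, 1/2]` the random subset of `P` in which every point is deleted independently with
probability `r` has on average at most `C |P|^d / √(r |P|)` halving hyperplanes. -/
theorem result (d : ℕ) (hd : 1 ≤ d) : ∃ C : ℝ, 0 < C ∧
    ∀ P : Finset (Fin d → ℝ), P.Nonempty → GeneralPosition P → ∀ r : ℝ, 0 < r → r ≤ 1 / 2 →
      meanHalving P r ≤ C * (P.card : ℝ) ^ d / Real.sqrt (r * P.card) := by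
  classical
  refine ⟨4 * (8 + 2 * d), by positivity, ?_⟩
  intro P hne hG r hr hr1
  set n := P.card with hnP
  have hn : 0 < n := hne.card_pos
  let f : Fin n → (Fin d → ℝ) := fun i => (P.equivFin.symm i : Fin d → ℝ)
  have hf : Function.Injective f := by
    intro i j h
    exact P.equivFin.symm.injective (Subtype.ext h)
  have hfP : ∀ i, f i ∈ P := fun i => (P.equivFin.symm i).2
  have hPf : ∀ x ∈ P, ∃ i, f i = x := fun x hx => ⟨P.equivFin ⟨x, hx⟩, by simp [f]⟩
  have hGP : GenPos f := by
    intro u hu c
    have h1 := hG u hu c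
    refine le_trans ?_ h1
    rw [← card_image_of_injective _ hf, ← Set.ncard_coe_finset]
    apply Set.ncard_le_ncard
    · intro x hx
      rw [mem_coe, mem_image] at hx
      obtain ⟨t, ht, rfl⟩ := hx
      exact ⟨hfP t, (mem_filter.mp ht).2⟩
    · exact (P.finite_toSet).subset fun x hx => hx.1
  have hb := mean_hfac hGP hn (by omega) hr hr1
  have htr : meanHalving P r =
      ∑ D : Finset (Fin n), wt r D * ((halving (Dᶜ.image f)).ncard : ℝ) := by
    unfold meanHalving
    symm
    refine Finset.sum_bij (fun D _ => Dᶜ.image f) ?_ ?_ ?_ ?_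
    · intro D _
      rw [mem_powerset]
      intro x hx
      obtain ⟨t, -, rfl⟩ := mem_image.mp hx
      exact hfP t
    · intro D _ D' _ h
      have := Finset.image_injective hf h
      simpa using this
    · intro Q hQ
      rw [mem_powerset] at hQ
      refine ⟨univ.filter (fun i => f i ∉ Q), mem_univ _, ?_⟩
      ext x
      simp only [mem_image, mem_compl, mem_filter, mem_univ, true_and, not_not]
      constructor
      · rintro ⟨i, hi, rfl⟩
        exact hi
      · intro hx
        obtain ⟨i, rfl⟩ := hPf x (hQ hx)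
        exact ⟨i, hx, rfl⟩
    · intro D _
      have hD : D.card ≤ n := by simpa using card_le_univ D
      have hc : (Dᶜ.image f).card = n - D.card := by
        rw [card_image_of_injective _ hf, card_compl, Fintype.card_fin]
      rw [hc, ← hnP, Nat.sub_sub_self hD]
      unfold wt
      ring
  rw [htr]
  calc ∑ D : Finset (Fin n), wt r D * ((halving (Dᶜ.image f)).ncard : ℝ)
      ≤ ∑ D : Finset (Fin n), wt r D * hfac f D := by
        apply sum_le_sum
        intro D _
        apply mul_le_mul_of_nonneg_left _ (wt_nonneg hr.le (by linarith) D)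
        exact_mod_cast count_le hf D
    _ ≤ 2 * (n : ℝ) ^ d * (2 * ((8 + 2 * d) / Real.sqrt (r * n))) := hb
    _ = _ := by ring

end Pool.Agent.Results.MP_971713_co.RandomDeletions
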